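import Mathlib
import Pool.Agent.H25.Interp

set_option autoImplicit false

namespace Pool.Agent.Results.MP_28fd2b_an.NoMaximalDensity

open MeasureTheory Filter Topology

/-- The system `(X, T)` is uniquely ergodic: it admits exactly one `T`-invariant Borel
probability measure. -/
def UniquelyErgodic {X : Type} [MeasurableSpace X] (T : X → X) : Prop :=
  ∃! μ : Measure X, IsProbabilityMeasure μ ∧ MeasurePreserving T μ μ

/-- `S` is a weak interpolation set of order `k` for the class of uniquely ergodic systems: for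
every `f : S → {0, …, k-1}` there are a uniquely ergodic topological dynamical system `(X, T)`
(`X` compact metric, with its Borel sigma-algebra, `T` continuous), a transitive point `x` and a
continuous complex-valued function `F` on `X` with `F (T^n x) = f n` for all `n ∈ S`. -/
def IsWeakInterpolationSet (k : ℕ) (S : Set ℕ) : Prop :=
  ∀ f : S → Fin k, ∃ (X : Type) (_ : MetricSpace X) (_ : CompactSpace X)
    (_ : MeasurableSpace X) (_ : BorelSpace X) (T : X → X) (x : X) (F : X → ℂ),
    Continuous T ∧ UniquelyErgodic T ∧ Dense (Set.range fun n : ℕ => T^[n] x) ∧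
      Continuous F ∧ ∀ n : S, F (T^[(n : ℕ)] x) = ((f n : ℕ) : ℂ)

open Classical in
/-- `sup_{m ≥ 0} |S ∩ {m+1, …, m+N}| / N`. -/
noncomputable def windowDensity (S : Set ℕ) (N : ℕ) : ℝ :=
  ⨆ m : ℕ, (((Finset.Ioc m (m + N)).filter (· ∈ S)).card : ℝ) / N

/-- The upper Banach density of `S` is `d`: the numbers `windowDensity S N` converge to `d`. -/
def HasUpperBanachDensity (S : Set ℕ) (d : ℝ) : Prop :=
  Tendsto (windowDensity S) atTop (𝓝 d)

open Classical in
/-- number of elements of `S` in a window, maximised -/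
noncomputable def wc (S : Set ℕ) (N : ℕ) : ℝ :=
  ⨆ m : ℕ, (((Finset.Ioc m (m + N)).filter (· ∈ S)).card : ℝ)

open Classical in
lemma card_le (S : Set ℕ) (m N : ℕ) :
    (((Finset.Ioc m (m + N)).filter (· ∈ S)).card : ℝ) ≤ N := by
  have : ((Finset.Ioc m (m + N)).filter (· ∈ S)).card ≤ (Finset.Ioc m (m + N)).card :=
    Finset.card_le_card (Finset.filter_subset _ _)
  rw [Nat.card_Ioc, Nat.add_sub_cancel_left] at this
  exact_mod_cast this

open Classical in
lemma wc_bdd (S : Set ℕ) (N : ℕ) :
    BddAbove (Set.range fun m : ℕ => (((Finset.Ioc m (m + N)).filter (· ∈ S)).card : ℝ)) :=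
  ⟨N, by rintro _ ⟨m, rfl⟩; exact card_le S m N⟩

open Classical in
lemma le_wc (S : Set ℕ) (m N : ℕ) :
    (((Finset.Ioc m (m + N)).filter (· ∈ S)).card : ℝ) ≤ wc S N := le_ciSup (wc_bdd S N) m

/-- a window contained in `S`. -/
lemma windowDensity_full {S : Set ℕ} {m N : ℕ} (hN : 0 < N)
    (h : ∀ n ∈ Finset.Ioc m (m + N), n ∈ S) : wc S N / N = 1 := by
  classical
  have hNR : (0 : ℝ) < N := by exact_mod_cast hN
  have h1 : (Finset.Ioc m (m + N)).filter (· ∈ S) = Finset.Ioc m (m + N) :=
    Finset.filter_true_of_mem h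
  have h2 := le_wc S m N
  rw [h1, Nat.card_Ioc, Nat.add_sub_cancel_left] at h2
  have h3 : wc S N ≤ N := ciSup_le fun m => card_le S m N
  rw [le_antisymm h3 h2]
  field_simp

lemma windowDensity_eq (S : Set ℕ) (N : ℕ) : windowDensity S N = wc S N / N := by
  unfold windowDensity wc
  simp only [div_eq_mul_inv]
  rw [Real.iSup_mul_of_nonneg (by positivity)]

lemma wc_subadditive (S : Set ℕ) : Subadditive (wc S) := by
  classical
  intro M N
  refine ciSup_le fun m => ?_
  have h1 : Finset.Ioc m (m + (M + N)) = Finset.Ioc m (m + M) ∪ Finset.Ioc (m + M) (m + M + N) := by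
    rw [← add_assoc]
    exact (Finset.Ioc_union_Ioc_eq_Ioc (by omega) (by omega)).symm
  have h2 : ((Finset.Ioc m (m + (M + N))).filter (· ∈ S)).card
      ≤ ((Finset.Ioc m (m + M)).filter (· ∈ S)).card
        + ((Finset.Ioc (m + M) (m + M + N)).filter (· ∈ S)).card := by
    rw [h1, Finset.filter_union]
    exact Finset.card_union_le _ _
  have h3 := le_wc S m M
  have h4 := le_wc S (m + M) N
  have h5 : (((Finset.Ioc m (m + (M + N))).filter (· ∈ S)).card : ℝ)
      ≤ (((Finset.Ioc m (m + M)).filter (· ∈ S)).card : ℝ)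
        + (((Finset.Ioc (m + M) (m + M + N)).filter (· ∈ S)).card : ℝ) := by exact_mod_cast h2
  linarith

/-- the upper Banach density exists. -/
lemma exists_density (S : Set ℕ) : ∃ d, HasUpperBanachDensity S d := by
  classical
  refine ⟨(wc_subadditive S).lim, ?_⟩
  have h := (wc_subadditive S).tendsto_lim ⟨0, by
    rintro _ ⟨n, rfl⟩
    refine div_nonneg ?_ (by positivity)
    exact (Nat.cast_nonneg _).trans (le_wc S 0 n)⟩
  have e : windowDensity S = fun n => wc S n / n := funext fun n => windowDensity_eq S n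
  unfold HasUpperBanachDensity
  rw [e]
  exact h

open Classical in
lemma exists_intervals {S : Set ℕ} {d : ℝ} (hd : HasUpperBanachDensity S d) :
    ∀ ε : ℝ, 0 < ε → ∀ B : ℕ, ∃ a ≥ B, ∃ L ≥ B,
      (d - ε) * L ≤ (((Finset.Ico a (a + L)).filter (· ∈ S)).card : ℝ) := by
  intro ε hε B
  have h1 : ∀ᶠ N in atTop, d - ε / 2 < windowDensity S N :=
    hd.eventually (lt_mem_nhds (by linarith))
  obtain ⟨N₁, hN₁⟩ := exists_nat_gt (B / (ε / 2))
  obtain ⟨N, hN, hNge⟩ := (h1.and (eventually_ge_atTop (N₁ + 2 * B + 1))).exists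
  obtain ⟨m, hm⟩ := exists_lt_of_lt_ciSup (show d - ε / 2 <
    ⨆ m : ℕ, (((Finset.Ioc m (m + N)).filter (· ∈ S)).card : ℝ) / N from hN)
  have hNpos : (0 : ℝ) < N := by
    have : 0 < N := by omega
    exact_mod_cast this
  rw [lt_div_iff₀ hNpos] at hm
  refine ⟨m + 1 + B, by omega, N - B, by omega, ?_⟩
  have h2 : ((Finset.Ioc m (m + N)).filter (· ∈ S)).card
      ≤ B + ((Finset.Ico (m + 1 + B) (m + 1 + B + (N - B))).filter (· ∈ S)).card := by
    have h3 : (Finset.Ioc m (m + N)).filter (· ∈ S) ⊆ Finset.Ico (m + 1) (m + 1 + B)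
        ∪ (Finset.Ico (m + 1 + B) (m + 1 + B + (N - B))).filter (· ∈ S) := by
      intro n hn
      rw [Finset.mem_filter, Finset.mem_Ioc] at hn
      rw [Finset.mem_union, Finset.mem_filter, Finset.mem_Ico, Finset.mem_Ico]
      by_cases h : n < m + 1 + B
      · left; omega
      · right; exact ⟨by omega, hn.2⟩
    refine (Finset.card_le_card h3).trans ((Finset.card_union_le _ _).trans ?_)
    simp
  have h4 : (((Finset.Ioc m (m + N)).filter (· ∈ S)).card : ℝ)
      ≤ B + (((Finset.Ico (m + 1 + B) (m + 1 + B + (N - B))).filter (· ∈ S)).card : ℝ) := by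
    exact_mod_cast h2
  have h5 : (B : ℝ) ≤ ε / 2 * N := by
    rw [div_lt_iff₀ (by positivity)] at hN₁
    have : (N₁ : ℝ) ≤ N := by exact_mod_cast (by omega : N₁ ≤ N)
    nlinarith
  have h6 : ((N - B : ℕ) : ℝ) ≤ N := by exact_mod_cast Nat.sub_le N B
  rcases le_or_gt 0 (d - ε) with h | h
  · have h7 : (d - ε) * ((N - B : ℕ) : ℝ) ≤ (d - ε) * N := mul_le_mul_of_nonneg_left h6 h
    linarith
  · have h7 : (d - ε) * ((N - B : ℕ) : ℝ) ≤ 0 :=
      mul_nonpos_of_nonpos_of_nonneg h.le (by positivity)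
    have h8 : (0 : ℝ) ≤
        (((Finset.Ico (m + 1 + B) (m + 1 + B + (N - B))).filter (· ∈ S)).card : ℝ) := by
      positivity
    linarith

open Classical in
/-- A weak interpolation set of order `k ≥ 2` has upper Banach density less than `1/k`. -/
theorem density_lt {k : ℕ} (hk : 2 ≤ k) {S : Set ℕ} (hS : IsWeakInterpolationSet k S) :
    ∃ d, HasUpperBanachDensity S d ∧ d < 1 / k := by
  obtain ⟨d, hd⟩ := exists_density S
  refine ⟨d, hd, ?_⟩
  by_contra hcon
  push Not at hcon
  have hkR : (2 : ℝ) ≤ k := by exact_mod_cast hk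
  have key : ∀ N : ℕ, 0 < N → k * d ≤ 1 ∧ ∃ n, ∀ i < N, n + i ∈ S := by
    intro N hN
    have : NeZero N := ⟨hN.ne'⟩
    have : Inhabited (ℕ × (Fin N → Fin k)) := ⟨(0, fun _ => ⟨0, by omega⟩)⟩
    obtain ⟨f, hf, hreal⟩ := Pool.Agent.H25.Interp.exists_coloring
      (ι := ℕ × (Fin N → Fin k)) (fun t n => Pool.Agent.H25.Interp.colour t.1 t.2 n) S d
      (exists_intervals hd)
    have hfk : ∀ n, f n < k := by
      intro n
      obtain ⟨t, ht⟩ := hf n
      rw [ht]
      exact (t.2 _).2
    obtain ⟨X, _, _, _, _, T, x, F, hT, ⟨μ, ⟨hμ1, hμ2⟩, hμu⟩, -, hF, hFf⟩ :=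
      hS (fun n => ⟨f n, hfk n⟩)
    have hR : Pool.Agent.H25.Interp.Realises k N S d T x F := by
      intro P w ε hε B
      obtain ⟨a, ha, L, hL, h1, h2⟩ := hreal (P, w) ε hε B
      refine ⟨a, ha, L, hL, h1, fun n hn hnS => ?_⟩
      have h3 := hFf ⟨n, hnS⟩
      simp only at h3
      rw [h3, h2 n hn]
    have hle := Pool.Agent.H25.Interp.density_le hT hμ2 (fun ν h1 h2 => hμu ν ⟨h1, h2⟩) x hF hR
    have hdk : d = 1 / k := by
      refine le_antisymm ?_ hcon
      rw [le_div_iff₀ (by linarith)]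
      linarith
    refine ⟨hle, ?_⟩
    rw [hdk] at hR
    exact Pool.Agent.H25.Interp.exists_run hT hμ2 (fun ν h1 h2 => hμu ν ⟨h1, h2⟩) x hF
      (by omega) hR
  have hone : Tendsto (windowDensity S) atTop (𝓝 1) := by
    refine tendsto_const_nhds.congr' ?_
    filter_upwards [eventually_gt_atTop 0] with N hN
    obtain ⟨n, hn⟩ := (key (N + 1) (Nat.succ_pos N)).2
    rw [windowDensity_eq]
    refine (windowDensity_full hN (m := n) fun m hm => ?_).symm
    rw [Finset.mem_Ioc] at hm
    have := hn (m - n) (by omega)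
    rwa [show n + (m - n) = m by omega] at this
  have hd1 : d = 1 := tendsto_nhds_unique hd hone
  have h1 := (key 1 one_pos).1
  rw [hd1] at h1
  linarith

/-- For `k = 1` the set of all positive integers works. -/
theorem order_one : IsWeakInterpolationSet 1 {n | 1 ≤ n} ∧
    HasUpperBanachDensity {n | 1 ≤ n} 1 := by
  classical
  constructor
  · intro f
    let _ : MeasurableSpace PUnit.{1} := borel PUnit.{1}
    have : BorelSpace PUnit.{1} := ⟨rfl⟩
    refine ⟨PUnit.{1}, inferInstance, inferInstance, inferInstance, inferInstance, id,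
      PUnit.unit, fun _ => 0, continuous_id, ?_, ?_, continuous_const, ?_⟩
    · refine ⟨Measure.dirac PUnit.unit, ⟨inferInstance, MeasurePreserving.id _⟩, ?_⟩
      rintro ν ⟨hν, -⟩
      ext s _
      rcases s.eq_empty_or_nonempty with h | h
      · rw [h]; simp
      · have : s = Set.univ := Set.eq_univ_of_forall fun u => by
          obtain ⟨v, hv⟩ := h
          rwa [Subsingleton.elim u v]
        rw [this]; simp
    · have : (Set.range fun n : ℕ => (id : PUnit.{1} → PUnit.{1})^[n] PUnit.unit) = Set.univ :=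
        Set.eq_univ_of_forall fun u => ⟨0, Subsingleton.elim _ _⟩
      rw [this]
      exact dense_univ
    · intro n
      have h1 : f n = 0 := Subsingleton.elim _ _
      rw [h1]
      simp
  · unfold HasUpperBanachDensity
    refine tendsto_const_nhds.congr' ?_
    filter_upwards [eventually_gt_atTop 0] with N hN
    rw [windowDensity_eq]
    refine (windowDensity_full hN (m := 0) fun m hm => ?_).symm
    rw [Finset.mem_Ioc] at hm
    exact hm.1

/-- **Answer to the question.** For `k ≥ 1`, a weak interpolation set `S ⊆ {1, 2, 3, …}` of order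
`k` for uniquely ergodic systems with `d*(S) = 1/k` exists if and only if `k = 1`; and for `k ≥ 2`
every weak interpolation set of order `k` has `d*(S) < 1/k`. -/
theorem result (k : ℕ) (hk : 1 ≤ k) :
    ((∃ S : Set ℕ, 0 ∉ S ∧ IsWeakInterpolationSet k S ∧ HasUpperBanachDensity S (1 / k)) ↔
      k = 1) ∧
    (2 ≤ k → ∀ S : Set ℕ, IsWeakInterpolationSet k S →
      ∃ d, HasUpperBanachDensity S d ∧ d < 1 / k) := by
  refine ⟨⟨?_, ?_⟩, fun hk2 S hS => density_lt hk2 hS⟩
  · rintro ⟨S, -, hS, hd⟩
    by_contra hne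
    obtain ⟨d, hd', hlt⟩ := density_lt (by omega) hS
    have := tendsto_nhds_unique hd hd'
    linarith
  · rintro rfl
    refine ⟨{n | 1 ≤ n}, by simp, order_one.1, ?_⟩
    simpa using order_one.2

end Pool.Agent.Results.MP_28fd2b_an.NoMaximalDensity
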